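import Pool.Agent.Y352.KSR.Exch

/-!
# Exponential tails for the gaps of a random subset: the tail bounds
-/

set_option autoImplicit false

open Finset
open scoped Classical

namespace Pool.Agent.Y352.KSR

open Pool.Agent.TH161.KS

/-- the number of sets containing a given set -/
lemma card_super (M n : ℕ) (B : Finset ℕ) (hB : B ⊆ range M) :
    ((powersetCard n (range M)).filter fun t => B ⊆ t).card ≤ (M - B.card).choose (n - B.card) := by
  have h1 : (powersetCard (n - B.card) (range M \ B)).card = (M - B.card).choose (n - B.card) := by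
    rw [card_powersetCard, card_sdiff_of_subset hB, card_range]
  rw [← h1]
  refine card_le_card_of_injOn (fun t => t \ B) ?_ ?_
  · intro t ht
    obtain ⟨h2, h3⟩ := mem_filter.mp ht
    obtain ⟨h4, h5⟩ := mem_powersetCard.mp h2
    rw [Finset.mem_coe, mem_powersetCard]
    exact ⟨sdiff_subset_sdiff h4 subset_rfl, by rw [card_sdiff_of_subset h3, h5]⟩
  · intro t ht t' ht' h
    have h2 := (mem_filter.mp ht).2
    have h3 := (mem_filter.mp ht').2
    have h4 : t \ B = t' \ B := h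
    rw [← sdiff_union_of_subset h2, ← sdiff_union_of_subset h3, h4]

/-- falling moments -/
lemma falling (M n r : ℕ) (A : Finset ℕ) (hA : A ⊆ range M) :
    ∑ t ∈ powersetCard n (range M), (A ∩ t).card.choose r ≤
      A.card.choose r * (M - r).choose (n - r) := by
  have h1 : ∀ t ∈ powersetCard n (range M), (A ∩ t).card.choose r =
      ∑ B ∈ powersetCard r A, if B ⊆ t then 1 else 0 := by
    intro t _
    rw [← card_powersetCard, ← card_filter]
    congr 1
    ext B
    simp only [mem_powersetCard, mem_filter, subset_inter_iff]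
    tauto
  rw [sum_congr rfl h1, sum_comm]
  refine (sum_le_card_nsmul _ _ ((M - r).choose (n - r)) fun B hB => ?_).trans ?_
  · obtain ⟨h2, h3⟩ := mem_powersetCard.mp hB
    rw [← card_filter]
    have h4 := card_super M n B (h2.trans hA)
    rw [h3] at h4
    exact h4
  · rw [card_powersetCard, smul_eq_mul]

/-- Markov for falling moments -/
lemma falling_tail (M n s m r : ℕ) (hs : s ≤ M) :
    ((powersetCard n (range M)).filter fun t => m ≤ (t.filter (· < s)).card).card * m.choose r ≤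
      s.choose r * (M - r).choose (n - r) := by
  have h1 := falling M n r (range s) (range_subset_range.mpr hs)
  rw [card_range] at h1
  refine le_trans ?_ h1
  rw [← smul_eq_mul, ← sum_const]
  refine (sum_le_sum fun t ht => ?_).trans (sum_le_sum_of_subset (filter_subset _ _))
  have h2 := (mem_filter.mp ht).2
  refine Nat.choose_le_choose r (h2.trans (card_le_card fun x hx => ?_))
  obtain ⟨h3, h4⟩ := mem_filter.mp hx
  exact mem_inter.mpr ⟨mem_range.mpr h4, h3⟩

/-- comparison of binomial coefficients, falling -/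
lemma fall_ratio (M n s m : ℕ) (ρ : ℝ) (hρ : 0 ≤ ρ) : ∀ r : ℕ, r ≤ m → r ≤ M →
    (∀ k : ℕ, k < r → ((s : ℝ) - k) * ((n : ℝ) - k) ≤ ρ * (((m : ℝ) - k) * ((M : ℝ) - k))) →
    r ≤ s → r ≤ n →
    (s.choose r : ℝ) * ((M - r).choose (n - r) : ℝ) ≤ ρ ^ r * ((m.choose r : ℝ) * (M.choose n : ℝ)) := by
  intro r
  induction r with
  | zero => intro _ _ _ _ _; simp
  | succ r ih =>
    intro h1 h2 h3 h4 h5
    have h6 := ih (by omega) (by omega) (fun k hk => h3 k (by omega)) (by omega) (by omega)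
    have h7 := h3 r (by omega)
    have e1 : ((s.choose (r + 1) : ℕ) : ℝ) * (r + 1) = (s.choose r : ℝ) * ((s : ℝ) - r) := by
      have := Nat.choose_succ_right_eq s r
      have h8 : (((s.choose (r + 1)) * (r + 1) : ℕ) : ℝ) = ((s.choose r * (s - r) : ℕ) : ℝ) := by
        exact_mod_cast this
      push_cast [Nat.cast_sub (by omega : r ≤ s)] at h8
      exact h8
    have e2 : ((m.choose (r + 1) : ℕ) : ℝ) * (r + 1) = (m.choose r : ℝ) * ((m : ℝ) - r) := by
      have := Nat.choose_succ_right_eq m r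
      have h8 : (((m.choose (r + 1)) * (r + 1) : ℕ) : ℝ) = ((m.choose r * (m - r) : ℕ) : ℝ) := by
        exact_mod_cast this
      push_cast [Nat.cast_sub (by omega : r ≤ m)] at h8
      exact h8
    have e3 : ((M : ℝ) - r) * ((M - (r + 1)).choose (n - (r + 1)) : ℝ) =
        ((M - r).choose (n - r) : ℝ) * ((n : ℝ) - r) := by
      have := Nat.add_one_mul_choose_eq (M - (r + 1)) (n - (r + 1))
      have e4 : M - (r + 1) + 1 = M - r := by omega
      have e5 : n - (r + 1) + 1 = n - r := by omega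
      rw [e4, e5] at this
      have h8 : (((M - r) * (M - (r + 1)).choose (n - (r + 1)) : ℕ) : ℝ) =
          (((M - r).choose (n - r) * (n - r) : ℕ) : ℝ) := by exact_mod_cast this
      push_cast [Nat.cast_sub (by omega : r ≤ M), Nat.cast_sub (by omega : r ≤ n)] at h8
      exact h8
    have hr : (0 : ℝ) < (r : ℝ) + 1 := by positivity
    have hMr : (0 : ℝ) < (M : ℝ) - r := by
      have : ((r + 1 : ℕ) : ℝ) ≤ M := by exact_mod_cast h2
      push_cast at this
      linarith
    have hmr : (0 : ℝ) < (m : ℝ) - r := by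
      have : ((r + 1 : ℕ) : ℝ) ≤ m := by exact_mod_cast h1
      push_cast at this
      linarith
    have hX : 0 ≤ (s.choose r : ℝ) * ((M - r).choose (n - r) : ℝ) := by positivity
    refine le_of_mul_le_mul_right (a := ((r : ℝ) + 1) * ((M : ℝ) - r)) ?_ (by positivity)
    calc (s.choose (r + 1) : ℝ) * ((M - (r + 1)).choose (n - (r + 1)) : ℝ) *
          (((r : ℝ) + 1) * ((M : ℝ) - r))
        = ((s.choose (r + 1) : ℝ) * (r + 1)) *
          (((M : ℝ) - r) * ((M - (r + 1)).choose (n - (r + 1)) : ℝ)) := by ring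
      _ = ((s.choose r : ℝ) * ((M - r).choose (n - r) : ℝ)) * (((s : ℝ) - r) * ((n : ℝ) - r)) := by
          rw [e1, e3]; ring
      _ ≤ ((s.choose r : ℝ) * ((M - r).choose (n - r) : ℝ)) *
          (ρ * (((m : ℝ) - r) * ((M : ℝ) - r))) := mul_le_mul_of_nonneg_left h7 hX
      _ ≤ (ρ ^ r * ((m.choose r : ℝ) * (M.choose n : ℝ))) *
          (ρ * (((m : ℝ) - r) * ((M : ℝ) - r))) := mul_le_mul_of_nonneg_right h6 (by positivity)
      _ = ρ ^ (r + 1) * (((m.choose r : ℝ) * ((m : ℝ) - r)) * (M.choose n : ℝ)) *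
          ((M : ℝ) - r) := by ring
      _ = ρ ^ (r + 1) * ((m.choose (r + 1) : ℝ) * (M.choose n : ℝ)) *
          (((r : ℝ) + 1) * ((M : ℝ) - r)) := by rw [← e2]; ring

/-- comparison of binomial coefficients, rising -/
lemma rise_ratio (M n s m : ℕ) (ρ : ℝ) (hρ : 0 ≤ ρ) (hs : 1 ≤ s) (hm : 1 ≤ m) : ∀ r : ℕ,
    (∀ k : ℕ, k < r → ((m : ℝ) + k) * ((M : ℝ) + 1 + k) ≤ ρ * (((s : ℝ) + k) * ((n : ℝ) + 1 + k))) →
    ((m - 1 + r).choose r : ℝ) * ((M + r).choose (n + r) : ℝ) ≤
      ρ ^ r * (((s - 1 + r).choose r : ℝ) * (M.choose n : ℝ)) := by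
  intro r
  induction r with
  | zero => intro _; simp
  | succ r ih =>
    intro h3
    have h6 := ih (fun k hk => h3 k (by omega))
    have h7 := h3 r (by omega)
    have e0 : ∀ a : ℕ, 1 ≤ a → (((a - 1 + (r + 1)).choose (r + 1) : ℕ) : ℝ) * (r + 1) =
        ((a - 1 + r).choose r : ℝ) * ((a : ℝ) + r) := by
      intro a ha
      have := Nat.add_one_mul_choose_eq (a - 1 + r) r
      have h8 : (((a - 1 + r + 1) * (a - 1 + r).choose r : ℕ) : ℝ) =
          (((a - 1 + r + 1).choose (r + 1) * (r + 1) : ℕ) : ℝ) := by exact_mod_cast this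
      have e4 : a - 1 + (r + 1) = a - 1 + r + 1 := by ring
      rw [e4]
      push_cast [Nat.cast_sub ha] at h8 ⊢
      linarith
    have e3 : ((n : ℝ) + 1 + r) * ((M + (r + 1)).choose (n + (r + 1)) : ℝ) =
        ((M : ℝ) + 1 + r) * ((M + r).choose (n + r) : ℝ) := by
      have := Nat.add_one_mul_choose_eq (M + r) (n + r)
      have h8 : (((M + r + 1) * (M + r).choose (n + r) : ℕ) : ℝ) =
          (((M + r + 1).choose (n + r + 1) * (n + r + 1) : ℕ) : ℝ) := by exact_mod_cast this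
      have e4 : M + (r + 1) = M + r + 1 := by ring
      have e5 : n + (r + 1) = n + r + 1 := by ring
      rw [e4, e5]
      push_cast at h8 ⊢
      linarith
    have e1 := e0 m hm
    have e2 := e0 s hs
    have hX : 0 ≤ ((m - 1 + r).choose r : ℝ) * ((M + r).choose (n + r) : ℝ) := by positivity
    refine le_of_mul_le_mul_right (a := ((r : ℝ) + 1) * ((n : ℝ) + 1 + r)) ?_ (by positivity)
    calc ((m - 1 + (r + 1)).choose (r + 1) : ℝ) * ((M + (r + 1)).choose (n + (r + 1)) : ℝ) *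
          (((r : ℝ) + 1) * ((n : ℝ) + 1 + r))
        = (((m - 1 + (r + 1)).choose (r + 1) : ℝ) * (r + 1)) *
          (((n : ℝ) + 1 + r) * ((M + (r + 1)).choose (n + (r + 1)) : ℝ)) := by ring
      _ = (((m - 1 + r).choose r : ℝ) * ((M + r).choose (n + r) : ℝ)) *
          (((m : ℝ) + r) * ((M : ℝ) + 1 + r)) := by rw [e1, e3]; ring
      _ ≤ (((m - 1 + r).choose r : ℝ) * ((M + r).choose (n + r) : ℝ)) *
          (ρ * (((s : ℝ) + r) * ((n : ℝ) + 1 + r))) := mul_le_mul_of_nonneg_left h7 hX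
      _ ≤ (ρ ^ r * (((s - 1 + r).choose r : ℝ) * (M.choose n : ℝ))) *
          (ρ * (((s : ℝ) + r) * ((n : ℝ) + 1 + r))) := mul_le_mul_of_nonneg_right h6 (by positivity)
      _ = ρ ^ (r + 1) * ((((s - 1 + r).choose r : ℝ) * ((s : ℝ) + r)) * (M.choose n : ℝ)) *
          ((n : ℝ) + 1 + r) := by ring
      _ = ρ ^ (r + 1) * (((s - 1 + (r + 1)).choose (r + 1) : ℝ) * (M.choose n : ℝ)) *
          (((r : ℝ) + 1) * ((n : ℝ) + 1 + r)) := by rw [← e2]; ring

/-- the lower tail of a sum of gaps -/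
lemma low_tail {M n m : ℕ} (hn : n ≤ M) (hm1 : 1 ≤ m) (hm : m ≤ n) {e : ℝ} (he : 0 < e) :
    (((powersetCard n (range M)).filter fun t =>
      ((ev t M m + 1 : ℤ) : ℝ) ≤ ((m : ℝ) - e) * (((M : ℝ) + 1) / ((n : ℝ) + 1))).card : ℝ) ≤
      Real.exp (-(e ^ 2 / (4 * m))) * (M.choose n : ℝ) := by
  obtain ⟨K, hK⟩ : ∃ K : ℝ, K = ((M : ℝ) + 1) / ((n : ℝ) + 1) := ⟨_, rfl⟩
  have hn' : (n : ℝ) ≤ M := by exact_mod_cast hn
  have hm' : (m : ℝ) ≤ n := by exact_mod_cast hm
  have hm1' : (1 : ℝ) ≤ m := by exact_mod_cast hm1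
  have hn0 : (0 : ℝ) < (n : ℝ) + 1 := by positivity
  have hM0 : (0 : ℝ) < (M : ℝ) + 1 := by positivity
  have hK0 : 0 < K := by rw [hK]; positivity
  rw [← hK]
  -- the case `e > m` is trivial
  rcases lt_or_ge (m : ℝ) e with hem | hem
  · have h1 : ((powersetCard n (range M)).filter fun t =>
        ((ev t M m + 1 : ℤ) : ℝ) ≤ ((m : ℝ) - e) * K) = ∅ := by
      rw [filter_eq_empty_iff]
      intro t _ h
      have h2 : ((m : ℝ) - e) * K < 0 := mul_neg_of_neg_of_pos (by linarith) hK0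
      have h3 : (-1 : ℤ) ≤ ev t M m := by
        unfold ev
        split_ifs
        · exact le_rfl
        · have : (0 : ℤ) ≤ ((t.orderEmbOfFin rfl ⟨m - 1, by assumption⟩ : ℕ) : ℤ) := by positivity
          omega
        · omega
      have h4 : (0 : ℝ) ≤ ((ev t M m + 1 : ℤ) : ℝ) := by
        have : (0 : ℤ) ≤ ev t M m + 1 := by omega
        exact_mod_cast this
      linarith
    rw [h1, card_empty]
    push_cast
    positivity
  · obtain ⟨s, hs⟩ : ∃ s : ℕ, s = ⌊((m : ℝ) - e) * K⌋₊ := ⟨_, rfl⟩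
    have hme : 0 ≤ ((m : ℝ) - e) * K := mul_nonneg (by linarith) hK0.le
    have hs1 : (s : ℝ) ≤ ((m : ℝ) - e) * K := by rw [hs]; exact Nat.floor_le hme
    have hsM : s ≤ M := by
      have h1 : ((m : ℝ) - e) * K < (M : ℝ) + 1 := by
        have h2 : ((m : ℝ) - e) * K < ((n : ℝ) + 1) * K :=
          mul_lt_mul_of_pos_right (by linarith) hK0
        have h3 : ((n : ℝ) + 1) * K = (M : ℝ) + 1 := by rw [hK]; field_simp
        linarith
      have h2 : (s : ℝ) < ((M + 1 : ℕ) : ℝ) := by push_cast; linarith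
      have h3 : s < M + 1 := by exact_mod_cast h2
      omega
    -- the event
    have hsub : ((powersetCard n (range M)).filter fun t =>
        ((ev t M m + 1 : ℤ) : ℝ) ≤ ((m : ℝ) - e) * K) ⊆
        (powersetCard n (range M)).filter fun t => m ≤ (t.filter (· < s)).card := by
      intro t ht
      obtain ⟨h1, h2⟩ := mem_filter.mp ht
      have h3 := (mem_pc h1).2
      rw [mem_filter]
      refine ⟨h1, ?_⟩
      have h4 : ev t M m + 1 ≤ (s : ℤ) := by
        rw [hs]
        have h5 : (0 : ℤ) ≤ ev t M m + 1 := by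
          have h6 : ev t M m = (t.orderEmbOfFin rfl ⟨m - 1, by omega⟩ : ℤ) :=
            Pool.Agent.TH521.KS_GAP.ev_mid t M m (by omega) (by omega)
          rw [h6]
          positivity
        obtain ⟨u, hu⟩ := Int.eq_ofNat_of_zero_le h5
        rw [hu] at h2 ⊢
        have h6 : (u : ℝ) ≤ ((m : ℝ) - e) * K := by exact_mod_cast h2
        have h7 := Nat.le_floor h6
        exact_mod_cast h7
      have h5 := (Pool.Agent.TH921.KS_LLN.ev_le_iff h3 M m hm1 hm ((s : ℤ) - 1)).mp (by omega)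
      refine h5.trans (card_le_card fun x hx => ?_)
      obtain ⟨h6, h7⟩ := mem_filter.mp hx
      exact mem_filter.mpr ⟨h6, by omega⟩
    -- parameters
    obtain ⟨r, hr⟩ : ∃ r : ℕ, r = ⌈e / 2⌉₊ := ⟨_, rfl⟩
    have hr1 : e / 2 ≤ (r : ℝ) := by rw [hr]; exact Nat.le_ceil _
    have hr2 : (r : ℝ) < e / 2 + 1 := by rw [hr]; exact Nat.ceil_lt_add_one (by linarith)
    have hrm : r ≤ m := by
      rw [hr]
      refine Nat.ceil_le.mpr ?_
      linarith
    have hd : 0 < (m : ℝ) - e / 2 := by linarith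
    obtain ⟨ρ, hρ⟩ : ∃ ρ : ℝ, ρ = ((m : ℝ) - e) / ((m : ℝ) - e / 2) := ⟨_, rfl⟩
    have hρ0 : 0 ≤ ρ := by rw [hρ]; exact div_nonneg (by linarith) hd.le
    have hρ1 : ρ ≤ Real.exp (-(e / (2 * m))) := by
      have h1 : ρ = 1 - (e / 2) / ((m : ℝ) - e / 2) := by
        rw [hρ, eq_sub_iff_add_eq, ← add_div, div_eq_one_iff_eq hd.ne']
        ring
      have h2 : e / (2 * m) ≤ (e / 2) / ((m : ℝ) - e / 2) := by
        rw [div_div, div_le_div_iff₀ (by positivity) (by positivity)]
        nlinarith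
      have h3 := Real.add_one_le_exp (-(e / (2 * m)))
      linarith
    have hρr : ρ ^ r ≤ Real.exp (-(e ^ 2 / (4 * m))) := by
      calc ρ ^ r ≤ Real.exp (-(e / (2 * m))) ^ r := pow_le_pow_left₀ hρ0 hρ1 r
        _ = Real.exp (r * (-(e / (2 * m)))) := by rw [← Real.exp_nat_mul]
        _ ≤ Real.exp (-(e ^ 2 / (4 * m))) := by
          refine Real.exp_le_exp.mpr ?_
          have h1 : e ^ 2 / (4 * m) = (e / 2) * (e / (2 * m)) := by field_simp; ring
          have h2 : (e / 2) * (e / (2 * m)) ≤ r * (e / (2 * m)) :=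
            mul_le_mul_of_nonneg_right hr1 (by positivity)
          linarith
    have hCm : 0 < (m.choose r : ℝ) := by exact_mod_cast Nat.choose_pos hrm
    have h1 := falling_tail M n s m r hsM
    have h1' : (((powersetCard n (range M)).filter fun t => m ≤ (t.filter (· < s)).card).card : ℝ) *
        (m.choose r : ℝ) ≤ (s.choose r : ℝ) * ((M - r).choose (n - r) : ℝ) := by exact_mod_cast h1
    have h2 : (s.choose r : ℝ) * ((M - r).choose (n - r) : ℝ) ≤
        ρ ^ r * ((m.choose r : ℝ) * (M.choose n : ℝ)) := by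
      rcases Nat.lt_or_ge s r with hsr | hsr
      · rw [Nat.choose_eq_zero_of_lt hsr]
        push_cast
        rw [zero_mul]
        positivity
      · refine fall_ratio M n s m ρ hρ0 r hrm (by omega) ?_ hsr (by omega)
        intro k hk
        have hk1 : (k : ℝ) + 1 ≤ r := by exact_mod_cast hk
        have hk2 : (k : ℝ) ≤ e / 2 := by linarith
        have hks : (k : ℝ) ≤ s := by
          have : k ≤ s := by omega
          exact_mod_cast this
        have hkn : (k : ℝ) + 1 ≤ n := by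
          have : k + 1 ≤ n := by omega
          exact_mod_cast this
        have hk0 : (0 : ℝ) ≤ k := Nat.cast_nonneg _
        -- (n - k) K ≤ (M - k)  since (n-k)(M+1) ≤ (M-k)(n+1)
        have h3 : ((n : ℝ) - k) * K ≤ (M : ℝ) - k := by
          rw [hK, mul_div_assoc', div_le_iff₀ hn0]
          nlinarith
        calc ((s : ℝ) - k) * ((n : ℝ) - k) ≤ (((m : ℝ) - e) * K) * ((n : ℝ) - k) :=
              mul_le_mul_of_nonneg_right (by linarith) (by linarith)
          _ = ((m : ℝ) - e) * (((n : ℝ) - k) * K) := by ring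
          _ ≤ ((m : ℝ) - e) * ((M : ℝ) - k) := mul_le_mul_of_nonneg_left h3 (by linarith)
          _ = ρ * ((m : ℝ) - e / 2) * ((M : ℝ) - k) := by
              rw [hρ, div_mul_cancel₀ _ hd.ne']
          _ ≤ ρ * ((m : ℝ) - k) * ((M : ℝ) - k) := by
              refine mul_le_mul_of_nonneg_right (mul_le_mul_of_nonneg_left (by linarith) hρ0) ?_
              linarith
          _ = ρ * (((m : ℝ) - k) * ((M : ℝ) - k)) := by ring
    have h3 : (((powersetCard n (range M)).filter fun t => m ≤ (t.filter (· < s)).card).card : ℝ) ≤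
        ρ ^ r * (M.choose n : ℝ) := by
      refine le_of_mul_le_mul_right ?_ hCm
      calc _ ≤ ρ ^ r * ((m.choose r : ℝ) * (M.choose n : ℝ)) := h1'.trans h2
        _ = _ := by ring
    calc _ ≤ (((powersetCard n (range M)).filter fun t => m ≤ (t.filter (· < s)).card).card : ℝ) := by
          exact_mod_cast card_le_card hsub
      _ ≤ ρ ^ r * (M.choose n : ℝ) := h3
      _ ≤ _ := mul_le_mul_of_nonneg_right hρr (by positivity)

/-- the upper tail of a sum of gaps -/
lemma high_tail {M n m : ℕ} (hn : n ≤ M) (hm1 : 1 ≤ m) (hm : m ≤ n) {e : ℝ} (he : 0 < e) :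
    (((powersetCard n (range M)).filter fun t =>
      ((m : ℝ) + e) * (((M : ℝ) + 1) / ((n : ℝ) + 1)) ≤ ((ev t M m + 1 : ℤ) : ℝ)).card : ℝ) ≤
      Real.exp (-(e ^ 2 / (4 * (m + e)))) * (M.choose n : ℝ) := by
  obtain ⟨K, hK⟩ : ∃ K : ℝ, K = ((M : ℝ) + 1) / ((n : ℝ) + 1) := ⟨_, rfl⟩
  have hn' : (n : ℝ) ≤ M := by exact_mod_cast hn
  have hm' : (m : ℝ) ≤ n := by exact_mod_cast hm
  have hm1' : (1 : ℝ) ≤ m := by exact_mod_cast hm1
  have hn0 : (0 : ℝ) < (n : ℝ) + 1 := by positivity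
  have hM0 : (0 : ℝ) < (M : ℝ) + 1 := by positivity
  have hK0 : 0 < K := by rw [hK]; positivity
  have hK1 : 1 ≤ K := by rw [hK, le_div_iff₀ hn0]; linarith
  rw [← hK]
  have hme : 0 < ((m : ℝ) + e) * K := mul_pos (by linarith) hK0
  obtain ⟨s, hs⟩ : ∃ s : ℕ, s = ⌈((m : ℝ) + e) * K⌉₊ := ⟨_, rfl⟩
  have hs1 : ((m : ℝ) + e) * K ≤ (s : ℝ) := by rw [hs]; exact Nat.le_ceil _
  have hs0 : 1 ≤ s := by
    have : (0 : ℝ) < s := by linarith
    exact_mod_cast this
  obtain ⟨r, hr⟩ : ∃ r : ℕ, r = ⌈e / 2⌉₊ := ⟨_, rfl⟩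
  have hr1 : e / 2 ≤ (r : ℝ) := by rw [hr]; exact Nat.le_ceil _
  have hr2 : (r : ℝ) < e / 2 + 1 := by rw [hr]; exact Nat.ceil_lt_add_one (by linarith)
  obtain ⟨ρ, hρ⟩ : ∃ ρ : ℝ, ρ = ((m : ℝ) + e / 2) / ((m : ℝ) + e) := ⟨_, rfl⟩
  have hρ0 : 0 ≤ ρ := by rw [hρ]; positivity
  have hρ1 : ρ ≤ Real.exp (-(e / (2 * (m + e)))) := by
    have h1 : ρ = 1 - e / (2 * ((m : ℝ) + e)) := by
      rw [hρ]
      field_simp
      ring
    have h3 := Real.add_one_le_exp (-(e / (2 * ((m : ℝ) + e))))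
    linarith
  have hρr : ρ ^ r ≤ Real.exp (-(e ^ 2 / (4 * (m + e)))) := by
    calc ρ ^ r ≤ Real.exp (-(e / (2 * (m + e)))) ^ r := pow_le_pow_left₀ hρ0 hρ1 r
      _ = Real.exp (r * (-(e / (2 * (m + e))))) := by rw [← Real.exp_nat_mul]
      _ ≤ Real.exp (-(e ^ 2 / (4 * (m + e)))) := by
        refine Real.exp_le_exp.mpr ?_
        have h1 : e ^ 2 / (4 * (m + e)) = (e / 2) * (e / (2 * (m + e))) := by field_simp; ring
        have h2 : (e / 2) * (e / (2 * (m + e))) ≤ r * (e / (2 * (m + e))) :=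
          mul_le_mul_of_nonneg_right hr1 (by positivity)
        linarith
  have hCs : 0 < ((s - 1 + r).choose r : ℝ) := by
    exact_mod_cast Nat.choose_pos (by omega : r ≤ s - 1 + r)
  have h1 := rising r M n m hm1 hm
  have h2 : ((m - 1 + r).choose r : ℝ) * ((M + r).choose (n + r) : ℝ) ≤
      ρ ^ r * (((s - 1 + r).choose r : ℝ) * (M.choose n : ℝ)) := by
    refine rise_ratio M n s m ρ hρ0 hs0 hm1 r ?_
    intro k hk
    have hk1 : (k : ℝ) + 1 ≤ r := by exact_mod_cast hk
    have hk2 : (k : ℝ) ≤ e / 2 := by linarith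
    have hk0 : (0 : ℝ) ≤ k := Nat.cast_nonneg _
    have h3 : (M : ℝ) + 1 + k ≤ K * ((n : ℝ) + 1 + k) := by
      have h4 : K * ((n : ℝ) + 1) = (M : ℝ) + 1 := by rw [hK]; field_simp
      nlinarith
    calc ((m : ℝ) + k) * ((M : ℝ) + 1 + k) ≤ ((m : ℝ) + e / 2) * (K * ((n : ℝ) + 1 + k)) := by
          gcongr
      _ = ρ * (((m : ℝ) + e) * K) * ((n : ℝ) + 1 + k) := by
          rw [hρ]
          field_simp
      _ ≤ ρ * ((s : ℝ) + k) * ((n : ℝ) + 1 + k) := by
          gcongr
          linarith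
      _ = _ := by ring
  have h3 : (((powersetCard n (range M)).filter fun t =>
      ((m : ℝ) + e) * K ≤ ((ev t M m + 1 : ℤ) : ℝ)).card : ℝ) * ((s - 1 + r).choose r : ℝ) ≤
      ((m - 1 + r).choose r : ℝ) * ((M + r).choose (n + r) : ℝ) := by
    have h4 : ((m - 1 + r).choose r : ℝ) * ((M + r).choose (n + r) : ℝ) =
        ∑ t ∈ powersetCard n (range M), ((((ev t M m).toNat + r).choose r : ℕ) : ℝ) := by
      exact_mod_cast h1.symm
    rw [h4, ← nsmul_eq_mul, ← sum_const]
    refine (sum_le_sum (g := fun t => ((((ev t M m).toNat + r).choose r : ℕ) : ℝ)) ?_).trans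
      (sum_le_sum_of_subset_of_nonneg (filter_subset _ _) fun _ _ _ => by positivity)
    intro t ht
    obtain ⟨h5, h6⟩ := mem_filter.mp ht
    have h7 := (mem_pc h5).2
    have h8 : ev t M m = (t.orderEmbOfFin rfl ⟨m - 1, by omega⟩ : ℤ) :=
      Pool.Agent.TH521.KS_GAP.ev_mid t M m (by omega) (by omega)
    have h9 : s - 1 ≤ (ev t M m).toNat := by
      rw [h8] at h6 ⊢
      rw [Int.toNat_natCast]
      have h10 : s ≤ (t.orderEmbOfFin rfl ⟨m - 1, by omega⟩ : ℕ) + 1 := by
        rw [hs]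
        refine Nat.ceil_le.mpr (h6.trans (le_of_eq ?_))
        push_cast
        ring
      omega
    exact_mod_cast Nat.choose_le_choose r (by omega)
  have h4 : (((powersetCard n (range M)).filter fun t =>
      ((m : ℝ) + e) * K ≤ ((ev t M m + 1 : ℤ) : ℝ)).card : ℝ) ≤ ρ ^ r * (M.choose n : ℝ) := by
    refine le_of_mul_le_mul_right ?_ hCs
    calc _ ≤ ρ ^ r * (((s - 1 + r).choose r : ℝ) * (M.choose n : ℝ)) := h3.trans h2
      _ = _ := by ring
  exact h4.trans (mul_le_mul_of_nonneg_right hρr (by positivity))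

end Pool.Agent.Y352.KSR
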